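import Mathlib

set_option autoImplicit false

namespace Pool.Agent.Results.MP_68af1b_co.NonReal

open Finset Polynomial

open Classical in
/-- The partitions of the finite set `s` into nonempty blocks of size at most `m`. -/
noncomputable def parts (m : ℕ) (s : Finset ℕ) : Finset (Finset (Finset ℕ)) :=
  s.powerset.powerset.filter fun P =>
    (∀ B ∈ P, B.Nonempty ∧ B.card ≤ m) ∧ ∀ i ∈ s, ∃! B, B ∈ P ∧ i ∈ B

/-- Restricted Stirling number: partitions of `{1,…,n}` into `k` blocks of size at most `m`. -/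
noncomputable def RS (n k m : ℕ) : ℕ := ((parts m (Icc 1 n)).filter fun P => P.card = k).card

noncomputable def W (m : ℕ) (s : Finset ℕ) : ℝ[X] := ∑ P ∈ parts m s, X ^ P.card

lemma mem_parts {m : ℕ} {s : Finset ℕ} {P : Finset (Finset ℕ)} : P ∈ parts m s ↔
    (∀ B ∈ P, B ⊆ s ∧ B.Nonempty ∧ B.card ≤ m) ∧ ∀ i ∈ s, ∃! B, B ∈ P ∧ i ∈ B := by
  simp only [parts, mem_filter, mem_powerset, subset_iff]
  constructor
  · rintro ⟨a, b, c⟩; exact ⟨fun B h => ⟨a h, b B h⟩, c⟩
  · rintro ⟨a, c⟩; exact ⟨fun B h => (a B h).1, fun B h => (a B h).2, c⟩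

lemma W_insert (m a : ℕ) (s : Finset ℕ) (ha : a ∉ s) :
    W m (insert a s) = X * ∑ D ∈ s.powerset, if D.card < m then W m (s \ D) else 0 := by
  rw [← sum_filter, mul_sum]
  simp only [W, mul_sum]
  rw [sum_sigma']
  symm
  refine sum_bij (fun x _ => insert (insert a x.1) x.2) ?_ ?_ ?_ ?_
  · rintro ⟨D, Q⟩ h
    simp only [mem_sigma, mem_filter, mem_powerset, mem_parts] at h ⊢
    obtain ⟨⟨h1, h2⟩, h3, h4⟩ := h
    refine ⟨fun B hB => ?_, fun i hi => ?_⟩
    · rcases mem_insert.1 hB with rfl | hB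
      · exact ⟨insert_subset_insert _ h1, insert_nonempty _ _, (card_insert_le _ _).trans h2⟩
      · exact ⟨(h3 B hB).1.trans (sdiff_subset.trans (subset_insert _ _)), (h3 B hB).2⟩
    · by_cases hD : i ∈ insert a D
      · refine ⟨_, ⟨mem_insert_self _ _, hD⟩, fun B ⟨hB, hi'⟩ => (mem_insert.1 hB).elim id fun hB => ?_⟩
        have := mem_sdiff.1 ((h3 B hB).1 hi')
        rcases mem_insert.1 hD with rfl | hD
        exacts [absurd this.1 ha, absurd hD this.2]
      · have hi2 : i ∈ s \ D := by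
          simp only [mem_insert, mem_sdiff] at hi hD ⊢; tauto
        obtain ⟨B, ⟨b1, b2⟩, b3⟩ := h4 i hi2
        exact ⟨B, ⟨mem_insert_of_mem b1, b2⟩, fun B' ⟨hB, hi'⟩ =>
          (mem_insert.1 hB).elim (fun e => absurd (e ▸ hi') hD) fun hB => b3 B' ⟨hB, hi'⟩⟩
  · rintro ⟨D, Q⟩ h ⟨D', Q'⟩ h' e
    simp only [mem_sigma, mem_filter, mem_powerset, mem_parts] at h h' e
    have n1 : ∀ B ∈ Q, a ∉ B := fun B hB x => ha (mem_sdiff.1 ((h.2.1 B hB).1 x)).1
    have n2 : ∀ B ∈ Q', a ∉ B := fun B hB x => ha (mem_sdiff.1 ((h'.2.1 B hB).1 x)).1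
    have e1 : insert a D = insert a D' :=
      (mem_insert.1 (e ▸ mem_insert_self (insert a D) Q)).resolve_right
        fun x => n2 _ x (mem_insert_self _ _)
    have e2 : D = D' := by
      rw [← erase_insert (fun x => ha (h.1.1 x) : a ∉ D), e1, erase_insert fun x => ha (h'.1.1 x)]
    subst e2
    have e3 : Q = Q' := by
      rw [← erase_insert (fun x => n1 _ x (mem_insert_self _ _) : insert a D ∉ Q), e,
        erase_insert fun x => n2 _ x (mem_insert_self _ _)]
    rw [e3]
  · intro P hP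
    obtain ⟨h1, h2⟩ := mem_parts.1 hP
    obtain ⟨B, ⟨b1, b2⟩, b3⟩ := h2 a (mem_insert_self _ _)
    refine ⟨⟨B.erase a, P.erase B⟩, ?_, by simp only [insert_erase b2, insert_erase b1]⟩
    simp only [mem_sigma, mem_filter, mem_powerset, mem_parts]
    refine ⟨⟨fun i hi => (mem_insert.1 ((h1 B b1).1 (mem_of_mem_erase hi))).resolve_left
      (mem_erase.1 hi).1, (card_erase_lt_of_mem b2).trans_le (h1 B b1).2.2⟩, fun B' hB => ?_,
      fun i hi => ?_⟩
    · obtain ⟨c1, c2⟩ := mem_erase.1 hB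
      refine ⟨fun i hi => ?_, (h1 B' c2).2⟩
      have hi2 := (h1 B' c2).1 hi
      have hn : i ∉ B := fun x => c1 ((h2 i hi2).unique ⟨c2, hi⟩ ⟨b1, x⟩)
      exact mem_sdiff.2 ⟨(mem_insert.1 hi2).resolve_left (fun e => hn (e ▸ b2)),
        fun x => hn (mem_of_mem_erase x)⟩
    · obtain ⟨c1, c2⟩ := mem_sdiff.1 hi
      obtain ⟨B', ⟨d1, d2⟩, d3⟩ := h2 i (mem_insert_of_mem c1)
      refine ⟨B', ⟨mem_erase.2 ⟨fun e => c2 (mem_erase.2 ⟨fun x => ha (x ▸ c1), e ▸ d2⟩), d1⟩, d2⟩,
        fun B'' ⟨x, y⟩ => d3 B'' ⟨mem_of_mem_erase x, y⟩⟩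
  · rintro ⟨D, Q⟩ h
    simp only [mem_sigma, mem_filter, mem_powerset, mem_parts] at h
    rw [card_insert_of_notMem fun x => ha (mem_sdiff.1 ((h.2.1 _ x).1 (mem_insert_self _ _))).1,
      pow_succ']

noncomputable def F (m : ℕ) : ℕ → ℝ[X]
  | 0 => 1
  | n + 1 => X * ∑ j ∈ range m, (n.choose j : ℝ[X]) * F m (n - j)
decreasing_by omega

lemma W_eq (m n : ℕ) : ∀ s : Finset ℕ, s.card = n → W m s = F m n := by
  induction n using Nat.strong_induction_on with
  | _ n ih =>
    intro s hs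
    rcases s.eq_empty_or_nonempty with rfl | ⟨a, ha⟩
    · subst hs
      have : parts m ∅ = {∅} := by
        ext P
        simp only [mem_parts, mem_singleton, subset_empty]
        constructor
        · rintro ⟨h, -⟩
          exact eq_empty_of_forall_notMem fun B hB => (h B hB).2.1.ne_empty (h B hB).1
        · rintro rfl; simp
      simp [W, this, F]
    · obtain ⟨k, rfl⟩ : ∃ k, n = k + 1 := ⟨n - 1, by have := card_pos.2 ⟨a, ha⟩; omega⟩
      have hk : (s.erase a).card = k := by rw [card_erase_of_mem ha]; omega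
      rw [← insert_erase ha, W_insert _ _ _ (notMem_erase _ _), F]
      congr 1
      rw [sum_congr rfl (g := fun D => if D.card < m then F m (k - D.card) else 0),
        sum_powerset_apply_card (fun j => if j < m then F m (k - j) else 0), hk]
      · simp only [smul_ite, smul_zero, nsmul_eq_mul]
        rw [← sum_filter]
        refine sum_subset (fun j hj => mem_range.2 (mem_filter.1 hj).2) fun j h1 h2 => ?_
        simp only [mem_filter, mem_range] at h1 h2
        rw [Nat.choose_eq_zero_of_lt (by omega)]; simp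
      · intro D hD
        have := card_sdiff_of_subset (mem_powerset.1 hD)
        rw [ih (k - D.card) (by omega) _ (by rw [this, hk])]

lemma deg_F (m n : ℕ) : (F m n).natDegree ≤ n := by
  induction n using Nat.strong_induction_on with
  | _ n ih =>
    cases n with
    | zero => simp [F]
    | succ n =>
      rw [F]
      refine natDegree_mul_le.trans ?_
      have : (∑ j ∈ range m, (n.choose j : ℝ[X]) * F m (n - j)).natDegree ≤ n :=
        natDegree_sum_le_of_forall_le _ _ fun j _ => natDegree_mul_le.trans (by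
          have := ih (n - j) (by omega)
          rw [natDegree_natCast]; omega)
      have := natDegree_X_le (R := ℝ)
      omega

lemma lag {p : ℝ[X]} (h : p.Splits) (x : ℝ) :
    p.eval x * p.derivative.derivative.eval x ≤ p.derivative.eval x ^ 2 := by
  induction h using Submonoid.closure_induction with
  | mem p hp => rcases hp with ⟨a, rfl⟩ | ⟨a, rfl⟩ <;> simp
  | one => simp
  | mul p q _ _ hp hq =>
    simp only [derivative_mul, derivative_add, eval_add, eval_mul]
    nlinarith [mul_nonneg (sq_nonneg (p.eval x)) (sub_nonneg.2 hq),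
      mul_nonneg (sq_nonneg (q.eval x)) (sub_nonneg.2 hp)]

abbrev T := ℤ × ℤ × ℤ

def st (x : ℤ) : ℕ → T × T × T × T × T
  | 0 => ((1, 0, 0), (1, 0, 0), (1, 0, 0), (1, 0, 0), (1, 0, 0))
  | n + 1 =>
    match st x n with
    | (w0, w1, w2, w3, w4) =>
      let c2 : ℤ := (n.descFactorial 2 / 2 : ℕ)
      let c3 : ℤ := (n.descFactorial 3 / 6 : ℕ)
      let c4 : ℤ := (n.descFactorial 4 / 24 : ℕ)
      let a := w0.1 + n * w1.1 + c2 * w2.1 + c3 * w3.1 + c4 * w4.1
      let b := w0.2.1 + n * w1.2.1 + c2 * w2.2.1 + c3 * w3.2.1 + c4 * w4.2.1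
      let c := w0.2.2 + n * w1.2.2 + c2 * w2.2.2 + c3 * w3.2.2 + c4 * w4.2.2
      ((x * a, a + x * b, 2 * b + x * c), w0, w1, w2, w3)

def R (x : ℤ) (t : T) (p : ℝ[X]) : Prop :=
  p.eval (x : ℝ) = t.1 ∧ p.derivative.eval (x : ℝ) = t.2.1 ∧
    p.derivative.derivative.eval (x : ℝ) = t.2.2

lemma st_ok (x : ℤ) (n : ℕ) : R x (st x n).1 (F 5 n) ∧ R x (st x n).2.1 (F 5 (n - 1)) ∧
    R x (st x n).2.2.1 (F 5 (n - 2)) ∧ R x (st x n).2.2.2.1 (F 5 (n - 3)) ∧
    R x (st x n).2.2.2.2 (F 5 (n - 4)) := by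
  induction n with
  | zero => simp [R, st, F]
  | succ n ih =>
    obtain ⟨h0, h1, h2, h3, h4⟩ := ih
    rw [st]
    generalize st x n = w at *
    obtain ⟨w0, w1, w2, w3, w4⟩ := w
    refine ⟨?_, h0, h1, h2, h3⟩
    have e2 : n.descFactorial 2 / 2 = n.choose 2 := (Nat.choose_eq_descFactorial_div_factorial n 2).symm
    have e3 : n.descFactorial 3 / 6 = n.choose 3 := (Nat.choose_eq_descFactorial_div_factorial n 3).symm
    have e4 : n.descFactorial 4 / 24 = n.choose 4 := (Nat.choose_eq_descFactorial_div_factorial n 4).symm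
    simp only [R] at *
    rw [F]
    simp only [e2, e3, e4, sum_range_succ, range_zero, sum_empty, derivative_mul, derivative_add,
      derivative_X, derivative_natCast, eval_add, eval_mul, eval_X, eval_natCast, Nat.sub_zero,
      h0.1, h0.2.1, h0.2.2, h1.1, h1.2.1, h1.2.2, h2.1, h2.2.1, h2.2.2, h3.1, h3.2.1, h3.2.2,
      h4.1, h4.2.1, h4.2.2, derivative_zero, derivative_one, eval_zero, eval_one, zero_mul,
      Nat.choose_zero_right, Nat.choose_one_right]
    push_cast
    refine ⟨by ring, by ring, by ring⟩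

set_option maxRecDepth 100000 in
lemma key : (st (-1940) 750).1.2.1 ^ 2 < (st (-1940) 750).1.1 * (st (-1940) 750).1.2.2 := by
  decide +kernel

lemma coe (m n k : ℕ) : (F m n).coeff k = RS n k m := by
  rw [← W_eq m n (Icc 1 n) (by simp), W, finset_sum_coeff, RS, card_filter]
  simp [coeff_X_pow, eq_comm]

lemma fin (m n : ℕ) (x : ℝ)
    (h : (F m n).derivative.eval x ^ 2 < (F m n).eval x * (F m n).derivative.derivative.eval x) :
    ∃ z : ℂ, z.im ≠ 0 ∧ ∑ k ∈ range (n + 1), (RS n k m : ℂ) * z ^ k = 0 := by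
  by_contra hc
  push Not at hc
  refine absurd (lag (Splits.of_splits_map (algebraMap ℝ ℂ) (IsAlgClosed.splits _)
    fun z hz => ?_) x) (not_le.2 h)
  by_contra hr
  refine hc z (fun h => hr ⟨z.re, Complex.ext rfl (by simp [h])⟩) ?_
  have := (mem_roots'.1 hz).2
  rw [IsRoot, eval_eq_sum_range' (n := n + 1)
    (Nat.lt_succ_of_le (natDegree_map_le.trans (deg_F _ _)))] at this
  rw [← this]
  refine sum_congr rfl fun k _ => ?_
  rw [coeff_map, coe]
  simp

/-- For `m = 5` and `n = 750` the restricted Bell polynomial has a non-real root. -/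
theorem result : ∃ m n : ℕ, 1 ≤ m ∧ m ≠ 3 ∧ m ≠ 4 ∧ 1 ≤ n ∧
    ∃ z : ℂ, z.im ≠ 0 ∧ ∑ k ∈ range (n + 1), (RS n k m : ℂ) * z ^ k = 0 := by
  refine ⟨5, 750, by norm_num, by norm_num, by norm_num, by norm_num,
    fin 5 750 ((-1940 : ℤ) : ℝ) ?_⟩
  have k := key
  have h := (st_ok (-1940) 750).1
  generalize st (-1940) 750 = w at k h
  rw [h.1, h.2.1, h.2.2]
  exact_mod_cast k

end Pool.Agent.Results.MP_68af1b_co.NonReal
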